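import Pool.Agent.H46.CH.LT

/-!
# From structures to runs
-/

set_option autoImplicit false

namespace Pool.Agent.H94.CH

open Classical Pool.Agent.H46.CH

/-- a set splits over the values of a function -/
theorem cb_split {A : Type} [Finite A] {K : Type} [Fintype K] (g : A → Option K) (S : Set A) :
    S.ncard = {x | x ∈ S ∧ g x = none}.ncard + ∑ k, {x | x ∈ S ∧ g x = some k}.ncard := by
  have := Fintype.ofFinite A
  have h : ∀ P : A → Prop, {x | P x}.ncard = (Finset.univ.filter fun x => P x).card := by
    intro P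
    rw [Set.ncard_eq_toFinset_card']
    congr 1
    ext x
    simp
  have h0 : S.ncard = ∑ o : Option K, {x | x ∈ S ∧ g x = o}.ncard := by
    have h1 : S.ncard = (Finset.univ.filter fun x => x ∈ S).card := h (fun x => x ∈ S)
    rw [h1]
    simp only [h]
    rw [Finset.card_eq_sum_card_fiberwise (f := g) (t := Finset.univ)
      (fun x _ => Finset.mem_coe.2 (Finset.mem_univ _))]
    refine Finset.sum_congr rfl fun o _ => ?_
    congr 1
    ext x
    simp
  rw [h0, Fintype.sum_option]

/-- a set splits over the values of a bounded function -/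
theorem cb_range {A : Type} [Finite A] (b : A → ℕ) (T : ℕ) (hb : ∀ x, b x ≤ T) (P : A → Prop) :
    {x | P x}.ncard = ∑ t ∈ Finset.range (T + 1), {x | b x = t ∧ P x}.ncard := by
  have := Fintype.ofFinite A
  have h : ∀ P : A → Prop, {x | P x}.ncard = (Finset.univ.filter fun x => P x).card := by
    intro P
    rw [Set.ncard_eq_toFinset_card']
    congr 1
    ext x
    simp
  simp only [h]
  rw [Finset.card_eq_sum_card_fiberwise (f := b) (t := Finset.range (T + 1))
    (fun x _ => Finset.mem_coe.2 (Finset.mem_range.2 (Nat.lt_succ_of_le (hb x))))]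
  refine Finset.sum_congr rfl fun o _ => ?_
  congr 1
  ext x
  simp [and_comm]

theorem pf_CB (hB1 : T_B1) (hB2 : T_B2) (hMT : T_MT) : T_CB := by
  intro J _ M n R lab hP hS
  obtain ⟨T, b, hb, hR⟩ := hP
  obtain ⟨hl, hcard⟩ := (hMT J M (Fin n) R lab).1 hS
  obtain ⟨hT, e, hini, hfi, hnx, h1, h2, h3⟩ := hB1 J M (Fin n) R lab T b hb hR hl
  have hrel := hB2 J M (Fin n) R lab T b e hR hl h1 h2 h3
  have hbT : ∀ x, b x ≤ T := fun x => (hb _).1 ⟨x, rfl⟩
  set v : ℕ → J → ℕ := fun t j => {x | b x = t ∧ (lab x).2.2 = some j}.ncard with hv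
  have hstl : ∀ x, M.stl (lab x) = M.stg T e (b x) := by
    intro x
    unfold AM.stl AM.stg
    rw [h2 x]
    by_cases hx : b x = T
    · rw [if_pos hx, if_neg (by omega)]
    · rw [if_neg hx, if_pos (by have := hbT x; omega)]
  have hsz : ∀ c, M.sz T e v c = {x | M.stl (lab x) = c}.ncard := by
    intro c
    rw [cb_range b T hbT]
    unfold AM.sz
    refine Finset.sum_congr rfl fun t ht => ?_
    have htT : t ≤ T := Nat.lt_succ_iff.1 (Finset.mem_range.1 ht)
    by_cases hc : M.stg T e t = c
    · rw [if_pos hc]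
      have hset : {x | b x = t ∧ M.stl (lab x) = c} = {x | b x = t} := by
        ext x
        simp only [Set.mem_ofPred_eq]
        constructor
        · exact fun h => h.1
        · intro h
          exact ⟨h, by rw [hstl, h, hc]⟩
      rw [hset, cb_split (fun x => (lab x).2.2) {x | b x = t}]
      have := h3 t htT
      simp only [Set.mem_ofPred_eq]
      rw [this]
    · rw [if_neg hc]
      symm
      rw [Set.ncard_eq_zero (Set.toFinite _)]
      ext x
      simp only [Set.mem_ofPred_eq, Set.mem_empty_iff_false, iff_false]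
      rintro ⟨hx, hx'⟩
      exact hc (by rw [← hx', hstl, hx])
  refine ⟨T, e, v, ⟨hT, hini, hfi, hnx, hrel, ?_, ?_⟩, ?_, ?_⟩
  · intro j
    rw [hv]
    simp only
    rw [Set.ncard_eq_zero (Set.toFinite _)]
    ext x
    simp only [Set.mem_ofPred_eq, Set.mem_empty_iff_false, iff_false]
    rintro ⟨hx, hx'⟩
    have := ((hl.1 x).1 (by rw [h1, if_pos hx])).1
    rw [hx'] at this
    exact absurd this (by simp)
  · intro j
    rw [hv]
    simp only
    rw [Set.ncard_eq_zero (Set.toFinite _)]
    ext x
    simp only [Set.mem_ofPred_eq, Set.mem_empty_iff_false, iff_false]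
    rintro ⟨hx, hx'⟩
    have := ((hl.1 x).2 (by rw [h2, if_pos hx])).1
    rw [hx'] at this
    exact absurd this (by simp)
  · rw [hsz, hsz]
    exact hcard
  · rw [hsz, hsz]
    have hsplit := Set.ncard_add_ncard_compl {x : Fin n | M.stl (lab x) = false} (Set.toFinite _)
      (Set.toFinite _)
    have hco : ({x : Fin n | M.stl (lab x) = false} : Set (Fin n))ᶜ =
        {x | M.stl (lab x) = true} := by
      ext x
      simp
    rw [hco, Nat.card_eq_fintype_card, Fintype.card_fin] at hsplit
    exact hsplit.symm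

end Pool.Agent.H94.CH
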