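import Pool.Agent.H46.CH.LT

/-!
# Local conditions are expressed by formulas
-/

set_option autoImplicit false

namespace Pool.Agent.H94.CH

open Classical Pool.Agent.H46.CH
open Pool.Agent.H8.VR (C2)

/-- conjunction of a list of formulas -/
def conj : List C2 → C2
  | [] => .eq false false
  | φ :: l => .and φ (conj l)

theorem conj_sat {A : Type} (P : ℕ → A → Prop) (R : ℕ → A → A → Prop) (v : Bool → A)
    (l : List C2) : (conj l).Sat P R v ↔ ∀ φ ∈ l, φ.Sat P R v := by
  induction l with
  | nil => simp [conj, C2.Sat]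
  | cons φ l ih => simp [conj, C2.Sat, ih]

/-- implication -/
def imp (φ ψ : C2) : C2 := .neg (.and φ (.neg ψ))

theorem imp_sat {A : Type} (P : ℕ → A → Prop) (R : ℕ → A → A → Prop) (v : Bool → A)
    (φ ψ : C2) : (imp φ ψ).Sat P R v ↔ (φ.Sat P R v → ψ.Sat P R v) := by
  simp only [imp, C2.Sat]
  tauto

/-- at least `k` -/
def atl (k : ℕ) (φ : C2) : C2 := .cnt k 1 0 true φ

theorem atl_sat {A : Type} (P : ℕ → A → Prop) (R : ℕ → A → A → Prop) (v : Bool → A) (k : ℕ)
    (φ : C2) : (atl k φ).Sat P R v ↔ k ≤ {a | φ.Sat P R (Function.update v true a)}.ncard := by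
  simp only [atl, C2.Sat, Nat.modEq_one, and_true]

/-- the condition on the number of the partners -/
def nm (φ : C2) (k : ℕ) (b : Bool) : C2 :=
  if b = true then .and (atl k φ) (.neg (atl (k + 1) φ)) else atl k φ

theorem nm_sat {A : Type} (P : ℕ → A → Prop) (R : ℕ → A → A → Prop) (v : Bool → A) (k : ℕ)
    (b : Bool) (φ : C2) : (nm φ k b).Sat P R v ↔
      if b = true then {a | φ.Sat P R (Function.update v true a)}.ncard = k
      else k ≤ {a | φ.Sat P R (Function.update v true a)}.ncard := by
  unfold nm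
  split_ifs
  · simp only [C2.Sat, atl_sat]
    omega
  · exact atl_sat P R v k φ

theorem pf_LOC (hLOB : T_LOB) : T_LOC := by
  intro Λ _ D
  obtain ⟨n, ⟨en⟩⟩ := Finite.exists_equiv_fin Λ
  let _ : Fintype Λ := Fintype.ofEquiv _ en.symm
  set ix : Λ → ℕ := fun l => (en l : ℕ) with hix
  have hinj : Function.Injective ix := fun a b h => en.injective (Fin.ext h)
  obtain ⟨hE, ψu, hu⟩ := hLOB Λ ix hinj
  choose F hF using hE
  set pf : (Λ → (Fin 3 → Prop) → (Fin 3 → Prop) → Prop) → C2 := fun E =>
    .and (.neg (.eq false true)) (F fun _ l' a b => E l' a b) with hpf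
  set G : Λ → C2 := fun l => conj ((D.ct l).map fun p =>
    imp (F fun l₀ _ _ _ => l₀ = l) (nm (pf p.1) p.2.1 p.2.2)) with hG
  set φ : C2 := .and ψu (.and (F fun l _ _ _ => D.ok l)
    (.and (imp (.neg (.eq false true)) (F D.pr)) (conj ((Finset.univ : Finset Λ).toList.map G))))
    with hφ
  -- the meaning of the formula when the labels are marked
  have hpn : ∀ (A : Type) (P : ℕ → A → Prop) (R : ℕ → A → A → Prop) (lab : A → Λ),
      Mk ix P lab → ∀ (v : Bool → A) (E : Λ → (Fin 3 → Prop) → (Fin 3 → Prop) → Prop),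
      {a | (pf E).Sat P R (Function.update v true a)}.ncard = pn lab R E (v false) := by
    intro A P R lab hM v E
    unfold pn
    congr 1
    ext a
    simp only [hpf, C2.Sat, Set.mem_ofPred_eq]
    rw [hF _ A P R lab hM]
    have h1 : Function.update v true a false = v false := by simp [Function.update]
    have h2 : Function.update v true a true = a := by simp [Function.update]
    rw [h1, h2]
    constructor
    · exact fun h => ⟨fun h3 => h.1 h3.symm, h.2⟩
    · exact fun h => ⟨fun h3 => h.1 h3.symm, h.2⟩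
  have hmean : ∀ (A : Type) (P : ℕ → A → Prop) (R : ℕ → A → A → Prop) (lab : A → Λ),
      Mk ix P lab → ∀ v : Bool → A, φ.Sat P R v ↔ D.ok (lab (v false)) ∧
        (v false ≠ v true → D.pr (lab (v false)) (lab (v true)) (bt R (v false) (v true))
          (bt R (v true) (v false))) ∧
        ∀ p ∈ D.ct (lab (v false)), if p.2.2 = true then pn lab R p.1 (v false) = p.2.1
          else p.2.1 ≤ pn lab R p.1 (v false) := by
    intro A P R lab hM v
    have h1 : ψu.Sat P R v := by
      rw [hu]
      exact ⟨lab (v false), fun l' => hM (v false) l'⟩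
    have h2 : (conj ((Finset.univ : Finset Λ).toList.map G)).Sat P R v ↔
        ∀ p ∈ D.ct (lab (v false)), if p.2.2 = true then pn lab R p.1 (v false) = p.2.1
          else p.2.1 ≤ pn lab R p.1 (v false) := by
      rw [conj_sat]
      constructor
      · intro h p hp
        have h3 := h (G (lab (v false))) (List.mem_map.mpr ⟨lab (v false), by simp, rfl⟩)
        simp only [hG] at h3
        rw [conj_sat] at h3
        have h4 := h3 _ (List.mem_map.mpr ⟨p, hp, rfl⟩)
        rw [imp_sat, hF _ A P R lab hM, nm_sat, hpn A P R lab hM] at h4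
        exact h4 rfl
      · intro h ψ hψ
        obtain ⟨l, _, rfl⟩ := List.mem_map.mp hψ
        simp only [hG]
        rw [conj_sat]
        intro ψ hψ
        obtain ⟨p, hp, rfl⟩ := List.mem_map.mp hψ
        rw [imp_sat, hF _ A P R lab hM, nm_sat, hpn A P R lab hM]
        intro h5
        exact h p (by rw [h5]; exact hp)
    have h3 : φ.Sat P R v ↔ ψu.Sat P R v ∧ (F fun l _ _ _ => D.ok l).Sat P R v ∧
        (imp (.neg (.eq false true)) (F D.pr)).Sat P R v ∧
        (conj ((Finset.univ : Finset Λ).toList.map G)).Sat P R v := by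
      simp only [hφ, C2.Sat]
    have h4 : (C2.neg (.eq false true)).Sat P R v ↔ v false ≠ v true := by
      simp only [C2.Sat, ne_eq]
    rw [h3, h2, imp_sat, hF _ A P R lab hM, hF _ A P R lab hM, h4]
    tauto
  refine ⟨φ, fun A _ R => ⟨?_, ?_⟩⟩
  · rintro ⟨P, hP⟩
    have h1 : ∀ x : A, ∃ l, ∀ l', P (ix l') x ↔ l' = l := by
      intro x
      have h2 := hP fun _ => x
      have h3 : ψu.Sat P R fun _ => x := by
        have : φ.Sat P R (fun _ => x) = (ψu.Sat P R (fun _ => x) ∧ _) := rfl
        rw [this] at h2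
        exact h2.1
      exact (hu A P R fun _ => x).mp h3
    choose lab hlab using h1
    have hM : Mk ix P lab := fun x l => hlab x l
    refine ⟨lab, fun x => ?_, fun x y hxy => ?_, fun x p hp => ?_⟩
    · exact ((hmean A P R lab hM fun _ => x).mp (hP _)).1
    · have h2 := ((hmean A P R lab hM fun b => if b = true then y else x).mp (hP _)).2.1
      simpa using h2 (by simpa using hxy)
    · exact ((hmean A P R lab hM fun _ => x).mp (hP _)).2.2 p hp
  · rintro ⟨lab, hS⟩
    have hM : Mk ix (fun i x => i = ix (lab x)) lab := fun x l => hinj.eq_iff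
    refine ⟨fun i x => i = ix (lab x), fun v => ?_⟩
    rw [hmean A _ R lab hM v]
    exact ⟨hS.1 _, fun h => hS.2.1 _ _ h, fun p hp => hS.2.2 _ p hp⟩

end Pool.Agent.H94.CH
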