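import Pool.Agent.H46.CH.LT

/-!
# Paths as sequences
-/

set_option autoImplicit false

namespace Pool.Agent.H94.CH

open Classical Pool.Agent.H46.CH

theorem pq_back {J : Type} [Fintype J] (M : AM J) (es : ℕ → M.I) (vs : ℕ → J → ℕ) (T : ℕ)
    (h : ∀ t < T, M.Rel (es t) (vs t) (vs (t + 1)) ∧ M.nx (es t) (es (t + 1))) :
    M.Path (es 0) (vs 0) (es T) (vs T) (∑ t ∈ Finset.range T, (1 + ∑ j, vs t j)) := by
  induction T with
  | zero => simpa using AM.Path.nil (M := M) (es 0) (vs 0)
  | succ T ih =>
    rw [Finset.sum_range_succ]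
    exact AM.Path.snoc _ _ _ _ _ _ _ (ih fun t ht => h t (by omega)) (h T (by omega)).1
      (h T (by omega)).2

theorem pf_PQ : T_PQ := by
  intro J _ M e v e' v' s
  constructor
  · intro h
    induction h with
    | nil => exact ⟨0, fun _ => e, fun _ => v, rfl, rfl, rfl, rfl, by simp, by simp⟩
    | snoc e₁ v₁ e₂ v₂ s _ hr hn ih =>
      obtain ⟨T, es, vs, h1, h2, h3, h4, h5, h6⟩ := ih
      refine ⟨T + 1, fun t => if t ≤ T then es t else e₂, fun t => if t ≤ T then vs t else v₂,
        ?_, ?_, ?_, ?_, ?_, ?_⟩
      · simp [h1]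
      · simp [h2]
      · simp
      · simp
      · intro t ht
        by_cases hT : t = T
        · subst hT
          simp only [le_refl, if_true, if_neg (show ¬ t + 1 ≤ t by omega)]
          rw [h3, h4]
          exact ⟨hr, hn⟩
        · have ht1 : t ≤ T := by omega
          have ht2 : t + 1 ≤ T := by omega
          simp only [if_pos ht1, if_pos ht2]
          exact h5 t (by omega)
      · rw [Finset.sum_range_succ, h6]
        have e1 : ∀ t ∈ Finset.range T, (1 + ∑ j, vs t j) =
            (1 + ∑ j, (if t ≤ T then vs t else v₂) j) := by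
          intro t ht
          have := Finset.mem_range.mp ht
          rw [if_pos (by omega)]
        rw [Finset.sum_congr rfl e1]
        simp only [le_refl, if_true]
        rw [h4]
  · rintro ⟨T, es, vs, h1, h2, h3, h4, h5, h6⟩
    have := pq_back M es vs T h5
    rw [h1, h2, h3, h4, ← h6] at this
    exact this

end Pool.Agent.H94.CH
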