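import Pool.Agent.H46.CH.LT

/-!
# Transport of labelled structures along a bijection
-/

set_option autoImplicit false

namespace Pool.Agent.H94.CH

open Classical Pool.Agent.H46.CH

theorem pf_TP : T_TP := by
  intro Λ A B D e lab R
  constructor
  · rintro ⟨T, b, h1, h2⟩
    refine ⟨T, fun x => b (e.symm x), fun i => ?_, fun x y => h2 _ _⟩
    rw [← h1 i]
    constructor
    · rintro ⟨x, hx⟩
      exact ⟨e.symm x, hx⟩
    · rintro ⟨x, hx⟩
      exact ⟨e x, by show b (e.symm (e x)) = i; rw [Equiv.symm_apply_apply]; exact hx⟩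
  · rintro ⟨h1, h2, h3⟩
    have hpn : ∀ (E : Λ → (Fin 3 → Prop) → (Fin 3 → Prop) → Prop) (x : B),
        pn (fun x => lab (e.symm x)) (fun i x y => R i (e.symm x) (e.symm y)) E x =
          pn lab R E (e.symm x) := by
      intro E x
      unfold pn
      rw [← Set.ncard_image_of_injective _ e.symm.injective]
      congr 1
      ext y
      simp only [Set.mem_image, Set.mem_ofPred_eq]
      constructor
      · rintro ⟨z, ⟨hz1, hz2⟩, rfl⟩
        exact ⟨fun h => hz1 (e.symm.injective h), hz2⟩
      · rintro ⟨hy1, hy2⟩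
        refine ⟨e y, ⟨fun h => hy1 (by rw [← h, Equiv.symm_apply_apply]), ?_⟩,
          Equiv.symm_apply_apply e y⟩
        show E (lab (e.symm (e y))) (fun i => R i (e.symm x) (e.symm (e y)))
          (fun i => R i (e.symm (e y)) (e.symm x))
        rw [Equiv.symm_apply_apply]
        exact hy2
    refine ⟨fun x => h1 _, fun x y hxy => h2 _ _ fun h => hxy (e.symm.injective h), ?_⟩
    intro x p hp
    have := h3 (e.symm x) p hp
    rw [hpn]
    exact this

end Pool.Agent.H94.CH
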